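import Pool.Agent.K6.H23.EG.Count

/-! Erdos's question on `n / 2 ^ n`: a criterion by binary digits, infinite families for every
admissible digit set, and twice as many `n` as in the family of Borwein and Loring.
Nothing is proved here for all `n`. -/

set_option autoImplicit false

namespace Pool.Agent.Results.MP_2aed32_nt.DigitFamilies

open Finset N331b93cf

/-- the odd number with the binary digits `0` and `e ∈ E` -/
def number (E : Finset ℕ) : ℕ := 1 + ∑ e ∈ E, 2 ^ e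

/-- the sum of `e * 2 ^ e` over the binary digits -/
def weight (E : Finset ℕ) : ℕ := ∑ e ∈ E, e * 2 ^ e

/-- `(n + M) D = 2 ^ (M + 1) - 2 + S` for the number `D < 2 ^ M` with the digit set `E ∪ {0}` -/
def Solves (n M : ℕ) (E : Finset ℕ) : Prop :=
  (∀ e ∈ E, 1 ≤ e ∧ e < M) ∧ (n + M) * number E + 2 = 2 ^ (M + 1) + weight E

theorem result :
    -- 1. the criterion
    (∀ n : ℕ, 2 ≤ n → (Erdos261Prop n ↔ ∃ (M : ℕ) (E : Finset ℕ), Solves n M E)) ∧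
    -- 2. one solution of the congruence for `E` gives infinitely many `n`
    (∀ E : Finset ℕ, (∀ e ∈ E, 1 ≤ e) → ∀ j : ℕ,
      ((number E : ℕ) : ℤ) ∣ 2 ^ j - 2 + (weight E : ℤ) →
      {n : ℕ | 2 ≤ n ∧ Erdos261Prop n ∧ ∃ M : ℕ, Solves n M E}.Infinite) ∧
    -- 3. infinitely many digit sets with one element
    (∀ b : ℕ, 2 ≤ b →
      {n : ℕ | 2 ≤ n ∧ Erdos261Prop n ∧ ∃ M : ℕ, Solves n M {2 ^ b - 2}}.Infinite) ∧
    -- 4. the number of `n ≤ X`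
    (∃ X₀ : ℕ, ∀ X ≥ X₀,
      2 * Real.logb 2 X ≤ ({n : ℕ | 1 ≤ n ∧ n ≤ X ∧ Erdos261Prop n}.ncard : ℝ)) := by
  have h1 : ∀ n : ℕ, 2 ≤ n → (Erdos261Prop n ↔ ∃ (M : ℕ) (E : Finset ℕ), Solves n M E) := by
    intro n hn
    constructor
    · intro h
      obtain ⟨M, E, hE, h2⟩ := Pool.Agent.K6.H23.EG.eq_of_prop (by omega) h
      exact ⟨M, E, hE, h2⟩
    · rintro ⟨M, E, hE, h2⟩
      exact Pool.Agent.K6.H23.EG.prop_of_eq E hn hE h2
  have h2 : ∀ E : Finset ℕ, (∀ e ∈ E, 1 ≤ e) → ∀ j : ℕ,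
      ((number E : ℕ) : ℤ) ∣ 2 ^ j - 2 + (weight E : ℤ) →
      {n : ℕ | 2 ≤ n ∧ Erdos261Prop n ∧ ∃ M : ℕ, Solves n M E}.Infinite := by
    intro E hE j h
    refine (Pool.Agent.K6.H23.EG.infinite_family E hE j h).mono ?_
    rintro n ⟨hn, M, hM⟩
    exact ⟨hn, (h1 n hn).2 ⟨M, E, hM⟩, M, hM⟩
  refine ⟨h1, h2, ?_, Pool.Agent.K6.H23.EG.count_real⟩
  intro b hb
  have h4 : 2 ^ 2 ≤ 2 ^ b := Nat.pow_le_pow_right (by norm_num) hb
  refine h2 {2 ^ b - 2} (by simp; omega) b ?_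
  obtain ⟨a, ha⟩ : ∃ a, 2 ^ b = a + 2 := ⟨2 ^ b - 2, by omega⟩
  have ha' : (2 : ℤ) ^ b = a + 2 := by exact_mod_cast ha
  rw [ha', ha, Nat.add_sub_cancel]
  refine ⟨a, ?_⟩
  simp only [number, weight, Finset.sum_singleton]
  push_cast
  ring

end Pool.Agent.Results.MP_2aed32_nt.DigitFamilies
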