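import Mathlib

set_option autoImplicit false

/-!
# `n / 2^n` as a sum of distinct `a / 2^a`: every residue class, in every interval `(x, L x]`
-/

namespace Pool.Agent.Results.MP_2aed32_nt.ResidueClasses

/-- property E: `n / 2^n` is a sum of at least two terms `a / 2^a` with distinct `a ≥ 1` -/
def PropE (n : ℕ) : Prop :=
  ∃ (t : ℕ) (a : Fin t → ℕ), 2 ≤ t ∧ Function.Injective a ∧ (∀ k, 1 ≤ a k) ∧
    (n : ℚ) / 2 ^ n = ∑ k, (a k : ℚ) / 2 ^ (a k)

theorem partial_sum (n m : ℕ) :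
    ∑ k ∈ Finset.range m, ((n + 1 + k : ℕ) : ℚ) / 2 ^ (k + 1) =
      (n + 2) - (n + m + 2) / 2 ^ m := by
  induction m with
  | zero => simp
  | succ m ih =>
    rw [Finset.sum_range_succ, ih]
    push_cast
    field_simp
    ring

theorem borwein_loring (m n : ℕ) (hm : 2 ≤ m) (hn : n + m + 2 = 2 ^ (m + 1)) : PropE n := by
  refine ⟨m, fun k => n + 1 + k, hm, ?_, fun k => ?_, ?_⟩
  · intro i j h
    apply Fin.ext
    simp only at h
    omega
  · show 1 ≤ n + 1 + (k : ℕ)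
    omega
  · have h1 := partial_sum n m
    have h2 : ((n : ℚ) + m + 2) / 2 ^ m = 2 := by
      have : ((n : ℚ) + m + 2) = 2 ^ (m + 1) := by exact_mod_cast hn
      rw [this, pow_succ]
      field_simp
    rw [h2] at h1
    have h3 : ∑ k : Fin m, ((n + 1 + (k : ℕ) : ℕ) : ℚ) / 2 ^ (n + 1 + (k : ℕ)) =
        (∑ k ∈ Finset.range m, ((n + 1 + k : ℕ) : ℚ) / 2 ^ (k + 1)) / 2 ^ n := by
      rw [Fin.sum_univ_eq_sum_range (fun k => ((n + 1 + k : ℕ) : ℚ) / 2 ^ (n + 1 + k)) m,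
        Finset.sum_div]
      refine Finset.sum_congr rfl fun k _ => ?_
      rw [div_div]
      congr 1
      ring
    rw [h3, h1]
    congr 1
    ring

/-- powers of two are periodic modulo `q`, with a period smaller than `q` -/
theorem period (q : ℕ) (hq : 2 ≤ q) :
    ∃ e d : ℕ, 1 ≤ d ∧ d < q ∧ ∀ m, e ≤ m → ∀ j, (q : ℤ) ∣ 2 ^ (m + d * j) - 2 ^ m := by
  obtain ⟨e, q', hodd, rfl⟩ := Nat.exists_eq_two_pow_mul_odd (n := q) (by omega)
  have hq'0 : 0 < q' := hodd.pos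
  refine ⟨e, Nat.totient q', Nat.totient_pos.2 hq'0, ?_, ?_⟩
  · rcases Nat.eq_zero_or_pos e with rfl | he
    · have h1 : 1 < q' := by omega
      have := Nat.totient_lt q' h1
      omega
    · have h1 : Nat.totient q' ≤ q' := Nat.totient_le q'
      have h2 : 2 ≤ 2 ^ e := by
        calc 2 = 2 ^ 1 := by norm_num
          _ ≤ 2 ^ e := Nat.pow_le_pow_right (by norm_num) he
      nlinarith
  · intro m hm j
    have hcop : Nat.Coprime 2 q' := (Nat.coprime_two_left).2 hodd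
    have h1 : (2 ^ (Nat.totient q' * j) : ℕ) ≡ 1 [MOD q'] := by
      rw [pow_mul]
      have := (Nat.ModEq.pow_totient hcop).pow j
      simpa using this
    have h2 : (q' : ℤ) ∣ 2 ^ (Nat.totient q' * j) - 1 := by
      have := (Nat.modEq_iff_dvd.1 h1.symm)
      push_cast at this
      exact this
    obtain ⟨c, hc⟩ := h2
    refine ⟨2 ^ (m - e) * c, ?_⟩
    have h3 : (2 : ℤ) ^ m = 2 ^ e * 2 ^ (m - e) := by
      rw [← pow_add]; congr 1; omega
    have h4 : (2 : ℤ) ^ (m + Nat.totient q' * j) - 2 ^ m = 2 ^ m * (2 ^ (Nat.totient q' * j) - 1) := by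
      rw [pow_add]; ring
    rw [h4, hc, h3]
    push_cast
    ring

/-- the values `2^(m+1) - m - 2` meet every residue class, with bounded gaps for `m` -/
theorem classes (q : ℕ) : 1 ≤ q → ∀ r : ℤ, ∃ T : ℕ, ∀ m0 : ℕ, ∃ m, m0 ≤ m ∧ m < m0 + T ∧
    (q : ℤ) ∣ (2 ^ (m + 1) - m - 2) - r := by
  induction q using Nat.strong_induction_on with
  | _ q ih =>
    intro hq r
    rcases Nat.lt_or_ge 1 q with hq2 | hq1
    · obtain ⟨e, d, hd1, hdq, hper⟩ := period q hq2
      have hg1 : 1 ≤ Nat.gcd d q := Nat.gcd_pos_of_pos_left q hd1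
      have hgq : Nat.gcd d q < q := lt_of_le_of_lt (Nat.gcd_le_left q hd1) hdq
      obtain ⟨T, hT⟩ := ih (Nat.gcd d q) hgq hg1 r
      refine ⟨e + T + d * q, fun m0 => ?_⟩
      obtain ⟨m, hm1, hm2, ⟨y, hy⟩⟩ := hT (m0 + e)
      have hqpos : (0 : ℤ) < q := by exact_mod_cast hq
      set w : ℤ := Nat.gcdA d q * y with hw
      set j : ℤ := w % q with hj
      have hj0 : 0 ≤ j := Int.emod_nonneg _ hqpos.ne'
      have hjq : j < q := Int.emod_lt_of_pos _ hqpos
      obtain ⟨J, hJ⟩ := Int.eq_ofNat_of_zero_le hj0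
      have hJq : J < q := by rw [hJ] at hjq; exact_mod_cast hjq
      refine ⟨m + d * J, by omega, ?_, ?_⟩
      · have : d * J ≤ d * q := Nat.mul_le_mul_left d hJq.le
        omega
      · have h1 := hper (m + 1) (by omega) J
        have hbez := Nat.gcd_eq_gcd_ab d q
        -- `d * J ≡ X` mod `q`, where `X = f(m) - r`
        have h2 : (q : ℤ) ∣ (2 ^ (m + 1) - m - 2 - r) - d * J := by
          rw [hy, hbez]
          have h3 : (q : ℤ) ∣ w - J := by
            have : w - (J : ℤ) = w - w % q := by rw [← hj, hJ]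
            rw [this]
            exact Int.dvd_self_sub_emod
          obtain ⟨z, hz⟩ := h3
          refine ⟨Nat.gcdB d q * y + d * z, ?_⟩
          have h5 : (J : ℤ) = w - q * z := by linarith
          rw [h5, hw]
          ring
        have h6 : (2 : ℤ) ^ (m + d * J + 1) - ((m + d * J : ℕ) : ℤ) - 2 - r =
            (2 ^ (m + 1 + d * J) - 2 ^ (m + 1)) + ((2 ^ (m + 1) - m - 2 - r) - d * J) := by
          push_cast
          have : m + d * J + 1 = m + 1 + d * J := by omega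
          rw [this]
          ring
        rw [h6]
        exact dvd_add h1 h2
    · have : q = 1 := by omega
      subst this
      exact ⟨1, fun m0 => ⟨m0, le_rfl, by omega, by simp⟩⟩

theorem result (q : ℕ) (hq : 1 ≤ q) (r : ℕ) :
    ∃ L : ℕ, ∀ x : ℕ, 1 ≤ x → ∃ n : ℕ, x < n ∧ n ≤ L * x ∧ n ≡ r [MOD q] ∧ PropE n := by
  obtain ⟨T, hT⟩ := classes q hq r
  refine ⟨2 ^ (T + 3), fun x hx => ?_⟩
  obtain ⟨m, hm1, hm2, hdiv⟩ := hT (Nat.log 2 x + 2)
  have hlt : x < 2 ^ (Nat.log 2 x + 1) := Nat.lt_pow_succ_log_self (by norm_num) x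
  have hle : 2 ^ Nat.log 2 x ≤ x := Nat.pow_log_le_self 2 (by omega)
  have hm3 : 2 ≤ m := by omega
  have h2m : m + 2 ≤ 2 ^ m := by
    clear hm1 hm2 hdiv
    induction m, hm3 using Nat.le_induction with
    | base => norm_num
    | succ m hm ih => rw [pow_succ]; omega
  have hpow : 2 ^ (m + 1) = 2 ^ m + 2 ^ m := by rw [pow_succ]; ring
  obtain ⟨n, hn⟩ : ∃ n, n + m + 2 = 2 ^ (m + 1) := ⟨2 ^ (m + 1) - m - 2, by omega⟩
  refine ⟨n, ?_, ?_, ?_, borwein_loring m n hm3 hn⟩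
  · have h1 : 2 ^ (Nat.log 2 x + 1) ≤ 2 ^ m := Nat.pow_le_pow_right (by norm_num) (by omega)
    omega
  · have h1 : 2 ^ (m + 1) ≤ 2 ^ (T + 3 + Nat.log 2 x) :=
      Nat.pow_le_pow_right (by norm_num) (by omega)
    rw [pow_add 2 (T + 3)] at h1
    have h2 : 2 ^ (T + 3) * 2 ^ Nat.log 2 x ≤ 2 ^ (T + 3) * x := Nat.mul_le_mul_left _ hle
    omega
  · have h1 : (n : ℤ) = 2 ^ (m + 1) - m - 2 := by
      have : ((n + m + 2 : ℕ) : ℤ) = ((2 ^ (m + 1) : ℕ) : ℤ) := by rw [hn]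
      push_cast at this
      linarith
    rw [← h1] at hdiv
    exact (Nat.modEq_iff_dvd.2 hdiv).symm

end Pool.Agent.Results.MP_2aed32_nt.ResidueClasses
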